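import Pool.Agent.W243.TD.Stm

/-!
TD-FAM: families of exponentials of polynomials.
-/

set_option autoImplicit false

namespace Pool.Agent.W410.TD

open Polynomial Finset Module
open Pool.Agent.W243.TD

/-- `P ↦ y P(t)` -/
noncomputable def ev (t y : ℂ) : ℚ[X] →ₗ[ℚ] ℂ :=
  (LinearMap.mulLeft ℚ y).comp (aeval t).toLinearMap

theorem ev_apply (t y : ℂ) (P : ℚ[X]) : ev t y P = y * aeval t P := rfl

theorem ev_inj {t y : ℂ} (ht : Transcendental ℚ t) (hy : y ≠ 0) :
    Function.Injective (ev t y) := by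
  intro P Q h
  rw [ev_apply, ev_apply] at h
  exact (transcendental_iff_injective.mp ht) (mul_left_cancel₀ hy h)

theorem al_ev {t : ℂ} (P : ℚ[X]) : Al t (aeval t P) := by
  have h1 : aeval t P ∈ IntermediateField.adjoin ℚ {t} := by
    have ht : t ∈ IntermediateField.adjoin ℚ {t} := IntermediateField.mem_adjoin_simple_self ℚ t
    have h2 : aeval t P = ((aeval (⟨t, ht⟩ : IntermediateField.adjoin ℚ {t}) P :
        IntermediateField.adjoin ℚ {t}) : ℂ) := by
      have := (IntermediateField.adjoin ℚ {t}).val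
      exact (aeval_algHom_apply (IntermediateField.adjoin ℚ {t}).val
        (⟨t, ht⟩ : IntermediateField.adjoin ℚ {t}) P)
    rw [h2]
    exact Subtype.property _
  exact isAlgebraic_algebraMap (⟨aeval t P, h1⟩ : IntermediateField.adjoin ℚ {t})

theorem finrank_map {t y : ℂ} (ht : Transcendental ℚ t) (hy : y ≠ 0) (U : Submodule ℚ ℚ[X]) :
    finrank ℚ (U.map (ev t y)) = finrank ℚ U :=
  (Submodule.equivMapOfInjective (ev t y) (ev_inj ht hy) U).finrank_eq.symm

theorem finrank_degreeLT (m : ℕ) : finrank ℚ (degreeLT ℚ m) = m := by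
  rw [(degreeLTEquiv ℚ m).finrank_eq, finrank_fin_fun]

instance (m : ℕ) : FiniteDimensional ℚ (degreeLT ℚ m) :=
  LinearEquiv.finiteDimensional (degreeLTEquiv ℚ m).symm

theorem U_le {n : ℕ} {U : Submodule ℚ ℚ[X]} (hU : ∀ P ∈ U, P.natDegree ≤ n) :
    U ≤ degreeLT ℚ (n + 1) := by
  intro P hP
  rw [mem_degreeLT]
  exact lt_of_le_of_lt degree_le_natDegree (by exact_mod_cast Nat.lt_succ_of_le (hU P hP))

theorem U_fin {n : ℕ} {U : Submodule ℚ ℚ[X]} (hU : ∀ P ∈ U, P.natDegree ≤ n) :
    FiniteDimensional ℚ U :=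
  Submodule.finiteDimensional_of_le (U_le hU)

theorem core (hprod : S_prod) (C : ℕ) (L : ℂ) (hgen : S_gen C L) {t y : ℂ}
    (ht : Transcendental ℚ t) (hy : y ≠ 0) (hAy : Al t y) {n : ℕ} {U : Submodule ℚ ℚ[X]}
    (hU : ∀ P ∈ U, P.natDegree ≤ n) (hE : ∀ P ∈ U, Al t (Complex.exp (L * (y * aeval t P))))
    (m : ℕ) : m * finrank ℚ U ≤ (n + m) + C * (m * (m - 1)) := by
  have := U_fin hU
  have h := hprod C L hgen t ht ((degreeLT ℚ m).map (ev t 1)) (U.map (ev t y))
    ((degreeLT ℚ (n + m)).map (ev t y)) ?_ ?_ ?_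
  · rw [finrank_map ht one_ne_zero, finrank_map ht hy, finrank_map ht hy, finrank_degreeLT,
      finrank_degreeLT] at h
    exact h
  · rintro z ⟨P, hP, rfl⟩
    rw [ev_apply]
    exact hAy.mul (al_ev P)
  · rintro z ⟨P, hP, rfl⟩
    rw [ev_apply]
    exact hE P hP
  · rintro x ⟨A, hA, rfl⟩ z ⟨P, hP, rfl⟩
    refine ⟨A * P, ?_, ?_⟩
    · have h1 : A.degree < m := mem_degreeLT.mp hA
      have h2 : P.natDegree ≤ n := hU P hP
      refine mem_degreeLT.mpr ?_
      rcases eq_or_ne A 0 with rfl | hA0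
      · rw [zero_mul, degree_zero]
        exact WithBot.bot_lt_coe _
      · rcases eq_or_ne P 0 with rfl | hP0
        · rw [mul_zero, degree_zero]
          exact WithBot.bot_lt_coe _
        · have h3 : A.natDegree < m := (natDegree_lt_iff_degree_lt hA0).mpr h1
          rw [← natDegree_lt_iff_degree_lt (mul_ne_zero hA0 hP0), natDegree_mul hA0 hP0]
          omega
    · rw [ev_apply, ev_apply, ev_apply, map_mul]
      ring

theorem fam1 : S_prod → S_gen 1 1 → S_fam1 := by
  intro hprod hgen t y ht hy hAy n U hU hE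
  set w := finrank ℚ U with hw
  have h := core hprod 1 1 hgen ht hy hAy hU (fun P hP => by rw [one_mul]; exact hE P hP) (w / 2)
  rw [← hw] at h
  set x := w / 2 with hx
  have h1 : x + 1 * (x * (x - 1)) = x ^ 2 := by
    rcases x with _ | x
    · simp
    · simp only [Nat.add_sub_cancel]
      ring
  have h2 : x * w ≤ n + x ^ 2 := by
    calc x * w ≤ n + x + 1 * (x * (x - 1)) := h
      _ = n + (x + 1 * (x * (x - 1))) := by ring
      _ = n + x ^ 2 := by rw [h1]
  rcases Nat.even_or_odd' w with ⟨c, hc | hc⟩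
  · have : x = c := by omega
    rw [this, hc] at h2
    rw [hc]
    nlinarith
  · have : x = c := by omega
    rw [this, hc] at h2
    rw [hc]
    nlinarith

theorem fam2 : S_prod → (∀ L, L ≠ 0 → S_gen 2 L) → S_fam2 := by
  intro hprod hgen t y ht hy n U hU hE m
  have hA1 : Al t 1 := by
    have := al_ev (t := t) 1
    rwa [map_one] at this
  have h := core hprod 2 y (hgen y hy) ht one_ne_zero hA1 hU
    (fun P hP => by rw [one_mul]; exact hE P hP) m
  rcases m with _ | m
  · simp
  · simp only [Nat.add_sub_cancel] at h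
    nlinarith

end Pool.Agent.W410.TD
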